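import Pool.Agent.Run7.h523.KF.Iface3

/-! # Piece CH0 of the third batch of KF (helper523): geometry of the Weyl chambers (helper299) -/

set_option autoImplicit false

namespace Run7.h299.KF

open MeasureTheory Set Run7.h523.KF

section
variable {P : Type} [Fintype P] [DecidableEq P]

theorem mem_XX {x : P → ℤ} : x ∈ XX P ↔
    (∀ v, -(2 * (Fintype.card P : ℤ)) < x v ∧ x v < 2 * Fintype.card P ∧ Odd (x v)) ∧
      ∀ v w, |x v| = |x w| → v = w := by
  classical
  unfold XX Om Si
  simp only [Finset.mem_filter, Fintype.mem_piFinset, Finset.mem_Ioo]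
  constructor
  · rintro ⟨h1, h2, _⟩
    exact ⟨fun v => ⟨(h1 v).1.1, (h1 v).1.2, (h1 v).2⟩, h2⟩
  · rintro ⟨h1, h2⟩
    exact ⟨fun v => ⟨⟨(h1 v).1, (h1 v).2.1⟩, (h1 v).2.2⟩, h2, fun _ _ h => h.elim⟩

theorem mem_Om {R : P × Bool → P × Bool → Prop} {x : P → ℤ} : x ∈ Om R (Fintype.card P) ↔
    x ∈ XX P ∧ ∀ a b, R a b → sv x a ≤ sv x b := by
  classical
  rw [mem_XX]
  unfold Om Si
  simp only [Finset.mem_filter, Fintype.mem_piFinset, Finset.mem_Ioo]
  constructor
  · rintro ⟨h1, h2, h3⟩
    exact ⟨⟨fun v => ⟨(h1 v).1.1, (h1 v).1.2, (h1 v).2⟩, h2⟩, h3⟩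
  · rintro ⟨⟨h1, h2⟩, h3⟩
    exact ⟨fun v => ⟨⟨(h1 v).1, (h1 v).2.1⟩, (h1 v).2.2⟩, h2, h3⟩

omit [Fintype P] [DecidableEq P] in
theorem abs_sv (x : P → ℤ) (a : P × Bool) : |sv x a| = |x a.1| := by
  unfold sv
  split_ifs <;> simp

omit [Fintype P] [DecidableEq P] in
theorem abs_svr (y : P → ℝ) (a : P × Bool) : |sv y a| = |y a.1| := by
  unfold sv
  split_ifs <;> simp

theorem ne0 {x : P → ℤ} (hx : x ∈ XX P) (v : P) : x v ≠ 0 := by
  have h3 := ((mem_XX.1 hx).1 v).2.2
  intro h0
  rw [h0] at h3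
  exact absurd h3 (by decide)

theorem sv_inj {x : P → ℤ} (hx : x ∈ XX P) {a b : P × Bool} (h : sv x a = sv x b) : a = b := by
  have h1 : |x a.1| = |x b.1| := by rw [← abs_sv, ← abs_sv, h]
  have h2 := (mem_XX.1 hx).2 _ _ h1
  obtain ⟨v, s⟩ := a
  obtain ⟨w, t⟩ := b
  simp only at h2
  subst h2
  have h4 := ne0 hx v
  cases s <;> cases t <;> simp [sv] at h ⊢ <;> omega

theorem natAbs_eq {x : P → ℤ} (hx : x ∈ XX P) (v : P) :
    (x v).natAbs = 2 * ((x v).natAbs / 2) + 1 ∧ (x v).natAbs / 2 < Fintype.card P := by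
  obtain ⟨h1, h2, k, hk⟩ := (mem_XX.1 hx).1 v
  omega

/-- the level of a label -/
noncomputable def lv {x : P → ℤ} (hx : x ∈ XX P) : P ≃ Fin (Fintype.card P) :=
  Equiv.ofBijective (fun v => ⟨(x v).natAbs / 2, (natAbs_eq hx v).2⟩)
    ((Fintype.bijective_iff_injective_and_card _).2 ⟨fun v w h => (mem_XX.1 hx).2 v w (by
      have h1 : (x v).natAbs / 2 = (x w).natAbs / 2 := congrArg Fin.val h
      have h2 := (natAbs_eq hx v).1
      have h3 := (natAbs_eq hx w).1
      rw [Int.abs_eq_natAbs, Int.abs_eq_natAbs]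
      omega), by simp⟩)

theorem lv_val {x : P → ℤ} (hx : x ∈ XX P) (v : P) : ((lv hx v : Fin _) : ℕ) = (x v).natAbs / 2 := rfl

/-! ### (1) the chambers are open -/

omit [DecidableEq P] in
theorem open_Ch (x : P → ℤ) : IsOpen (Ch x) := by
  have e : Ch x = ⋂ a : P × Bool, ⋂ b : P × Bool,
      {y : P → ℝ | sv x a < sv x b → sv y a < sv y b} := by
    ext y
    simp only [Ch, mem_setOf_eq, mem_iInter]
  rw [e]
  refine isOpen_iInter_of_finite fun a => isOpen_iInter_of_finite fun b => ?_
  have hc : ∀ a : P × Bool, Continuous fun y : P → ℝ => sv y a := by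
    rintro ⟨v, s⟩
    cases s
    · simp only [sv, Bool.false_eq_true, if_false]
      fun_prop
    · simp only [sv, if_true]
      fun_prop
  by_cases h : sv x a < sv x b
  · simp only [h, true_imp_iff]
    exact isOpen_lt (hc a) (hc b)
  · simp only [h, false_imp_iff]
    exact isOpen_univ

/-! ### (2) the state is determined by a point of the chamber -/

omit [Fintype P] [DecidableEq P] in
theorem sign_pos {x : P → ℤ} {y : P → ℝ} (hy : y ∈ Ch x) {v : P} (h : 0 < x v) : 0 < y v := by
  have := hy (v, false) (v, true) (by simp [sv]; omega)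
  simp [sv] at this
  linarith

omit [Fintype P] [DecidableEq P] in
theorem sign_neg {x : P → ℤ} {y : P → ℝ} (hy : y ∈ Ch x) {v : P} (h : x v < 0) : y v < 0 := by
  have := hy (v, true) (v, false) (by simp [sv]; omega)
  simp [sv] at this
  linarith

theorem abs_lt_abs' {x : P → ℤ} (hx : x ∈ XX P) {y : P → ℝ} (hy : y ∈ Ch x) {v w : P}
    (h : |x w| < |x v|) : |y w| < |y v| := by
  have key : ∀ u : P, ∃ a : P × Bool, sv x a = |x u| ∧ sv y a = |y u| := by
    intro u
    rcases lt_or_gt_of_ne (ne0 hx u) with h0 | h0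
    · refine ⟨(u, false), ?_, ?_⟩
      · simp [sv, abs_of_neg h0]
      · simp [sv, abs_of_neg (sign_neg hy h0)]
    · refine ⟨(u, true), ?_, ?_⟩
      · simp [sv, abs_of_pos h0]
      · simp [sv, abs_of_pos (sign_pos hy h0)]
  obtain ⟨a, a1, a2⟩ := key w
  obtain ⟨b, b1, b2⟩ := key v
  have := hy a b (by rw [a1, b1]; exact h)
  rwa [a2, b2] at this

theorem rank {x : P → ℤ} (hx : x ∈ XX P) {y : P → ℝ} (hy : y ∈ Ch x) (v : P) :
    (Finset.univ.filter fun w => |y w| ≤ |y v|).card = (x v).natAbs / 2 + 1 := by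
  have e : (Finset.univ.filter fun w => |y w| ≤ |y v|) =
      (Finset.Iic (lv hx v)).map (lv hx).symm.toEmbedding := by
    ext w
    simp only [Finset.mem_filter, Finset.mem_univ, true_and, Finset.mem_map_equiv,
      Equiv.symm_symm, Finset.mem_Iic, Fin.le_def, lv_val]
    have hv := (natAbs_eq hx v).1
    have hw := (natAbs_eq hx w).1
    constructor
    · intro h
      by_contra hcon
      have h1 : |x v| < |x w| := by
        rw [Int.abs_eq_natAbs, Int.abs_eq_natAbs]
        omega
      exact absurd (abs_lt_abs' hx hy h1) (not_lt.2 h)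
    · intro h
      by_contra hcon
      push Not at hcon
      have h1 : |x w| ≤ |x v| := by
        rw [Int.abs_eq_natAbs, Int.abs_eq_natAbs]
        omega
      rcases h1.lt_or_eq with h2 | h2
      · exact absurd (abs_lt_abs' hx hy h2) (not_lt.2 hcon.le)
      · have := (mem_XX.1 hx).2 _ _ h2
        subst this
        exact lt_irrefl _ hcon
  rw [e, Finset.card_map, Fin.card_Iic, lv_val]

theorem unique_state {x x' : P → ℤ} (hx : x ∈ XX P) (hx' : x' ∈ XX P) {y : P → ℝ}
    (hy : y ∈ Ch x) (hy' : y ∈ Ch x') : x = x' := by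
  funext v
  have h1 := rank hx hy v
  have h2 := rank hx' hy' v
  have h3 := (natAbs_eq hx v).1
  have h4 := (natAbs_eq hx' v).1
  have h5 : (x v).natAbs = (x' v).natAbs := by omega
  rcases lt_or_gt_of_ne (ne0 hx v) with h | h <;> rcases lt_or_gt_of_ne (ne0 hx' v) with h' | h'
  · omega
  · exact absurd (sign_neg hy h) (not_lt.2 (sign_pos hy' h').le)
  · exact absurd (sign_neg hy' h') (not_lt.2 (sign_pos hy h).le)
  · omega

/-! ### (3) the chambers fill the space -/

omit [Fintype P] [DecidableEq P] in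
theorem null_ker [Fintype P] (L : (P → ℝ) →ₗ[ℝ] ℝ) (hL : ∃ y, L y ≠ 0) :
    volume {y : P → ℝ | L y = 0} = 0 := by
  have h := Measure.addHaar_submodule (volume : Measure (P → ℝ)) (LinearMap.ker L) (by
    intro h
    obtain ⟨y, hy⟩ := hL
    have : y ∈ LinearMap.ker L := by rw [h]; trivial
    exact hy (LinearMap.mem_ker.1 this))
  have e : {y : P → ℝ | L y = 0} = (LinearMap.ker L : Set (P → ℝ)) := by
    ext y
    simp
  rw [e]
  exact h

theorem generic {y : P → ℝ} (h0 : ∀ v, y v ≠ 0) (h1 : ∀ v w, |y v| = |y w| → v = w) :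
    ∃ x ∈ XX P, y ∈ Ch x := by
  classical
  set c : P → ℕ := fun v => (Finset.univ.filter fun w => |y w| ≤ |y v|).card with hc
  have c1 : ∀ v, 1 ≤ c v := by
    intro v
    rw [hc]
    exact Finset.card_pos.2 ⟨v, by simp⟩
  have c2 : ∀ v, c v ≤ Fintype.card P := fun v => Finset.card_le_univ _
  have c3 : ∀ v w, |y v| < |y w| → c v < c w := by
    intro v w h
    apply Finset.card_lt_card
    rw [Finset.ssubset_iff_of_subset]
    · refine ⟨w, by simp, ?_⟩
      simp only [Finset.mem_filter, Finset.mem_univ, true_and, not_le]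
      exact h
    · intro u hu
      simp only [Finset.mem_filter, Finset.mem_univ, true_and] at hu ⊢
      exact hu.trans h.le
  set x : P → ℤ := fun v => if 0 < y v then 2 * (c v : ℤ) - 1 else -(2 * (c v : ℤ) - 1) with hx
  have hxa : ∀ v, |x v| = 2 * (c v : ℤ) - 1 := by
    intro v
    have := c1 v
    simp only [hx]
    split_ifs
    · rw [abs_of_nonneg (by omega)]
    · rw [abs_neg, abs_of_nonneg (by omega)]
  have hxX : x ∈ XX P := by
    rw [mem_XX]
    constructor
    · intro v
      have k1 := c1 v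
      have k2 := c2 v
      simp only [hx]
      split_ifs
      · exact ⟨by omega, by omega, ⟨(c v : ℤ) - 1, by ring⟩⟩
      · exact ⟨by omega, by omega, ⟨-(c v : ℤ), by ring⟩⟩
    · intro v w h
      rw [hxa, hxa] at h
      apply h1
      rcases lt_trichotomy (|y v|) (|y w|) with h2 | h2 | h2
      · have := c3 _ _ h2
        omega
      · exact h2
      · have := c3 _ _ h2
        omega
  refine ⟨x, hxX, ?_⟩
  have hsv : ∀ a : P × Bool, sv x a = if 0 < sv y a then 2 * (c a.1 : ℤ) - 1 else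
      -(2 * (c a.1 : ℤ) - 1) := by
    rintro ⟨v, s⟩
    cases s
    · simp only [sv, Bool.false_eq_true, if_false, hx]
      rcases lt_or_gt_of_ne (h0 v) with h | h
      · rw [if_neg (not_lt.2 h.le), if_pos (by linarith)]
        ring
      · rw [if_pos h, if_neg (by linarith)]
    · simp only [sv, if_true, hx]
  have hne : ∀ a : P × Bool, sv y a ≠ 0 := by
    intro a ha
    have := abs_svr y a
    rw [ha, abs_zero] at this
    exact h0 a.1 (abs_eq_zero.1 this.symm)
  have mono : ∀ a b : P × Bool, sv y a < sv y b → sv x a < sv x b := by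
    intro a b hab
    rw [hsv, hsv]
    have k1 := c1 a.1
    have k2 := c1 b.1
    rcases lt_or_gt_of_ne (hne a) with ha | ha <;> rcases lt_or_gt_of_ne (hne b) with hb | hb
    · rw [if_neg (not_lt.2 ha.le), if_neg (not_lt.2 hb.le)]
      have h2 : |y b.1| < |y a.1| := by
        rw [← abs_svr, ← abs_svr, abs_of_neg ha, abs_of_neg hb]
        linarith
      have := c3 _ _ h2
      omega
    · rw [if_neg (not_lt.2 ha.le), if_pos hb]
      omega
    · linarith
    · rw [if_pos ha, if_pos hb]
      have h2 : |y a.1| < |y b.1| := by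
        rw [← abs_svr, ← abs_svr, abs_of_pos ha, abs_of_pos hb]
        exact hab
      have := c3 _ _ h2
      omega
  intro a b hab
  by_contra hcon
  push Not at hcon
  rcases hcon.lt_or_eq with h | h
  · have := mono _ _ h
    omega
  · -- equal values: the same label
    have h2 : |y a.1| = |y b.1| := by rw [← abs_svr, ← abs_svr, h]
    have h3 := h1 _ _ h2
    have h4 : a = b := by
      obtain ⟨v, s⟩ := a
      obtain ⟨w, t⟩ := b
      simp only at h3
      subst h3
      have h5 := h0 v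
      cases s <;> cases t
      · rfl
      · exfalso
        simp only [sv, Bool.false_eq_true, if_false, if_true] at h
        exact h5 (by linarith)
      · exfalso
        simp only [sv, Bool.false_eq_true, if_false, if_true] at h
        exact h5 (by linarith)
      · rfl
    rw [h4] at hab
    exact lt_irrefl _ hab

theorem fill : volume (⋃ x ∈ XX P, Ch x)ᶜ = 0 := by
  classical
  have hsub : (⋃ x ∈ XX P, Ch x)ᶜ ⊆ (⋃ v : P, {y : P → ℝ | y v = 0}) ∪
      ⋃ v : P, ⋃ w : P, ({y : P → ℝ | v ≠ w ∧ y v = y w} ∪ {y : P → ℝ | v ≠ w ∧ y v = -y w}) := by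
    intro y hy
    by_contra hcon
    apply hy
    simp only [mem_union, mem_iUnion, mem_setOf_eq, not_or, not_exists, not_and] at hcon
    obtain ⟨g1, g2⟩ := hcon
    obtain ⟨x, hx, hyx⟩ := generic (y := y) g1 (fun v w h => by
      by_contra hne
      obtain ⟨g3, g4⟩ := g2 v w
      rcases abs_eq_abs.1 h with h | h
      · exact g3 hne h
      · exact g4 hne h)
    exact mem_biUnion hx hyx
  refine measure_mono_null hsub ?_
  rw [measure_union_null_iff, measure_iUnion_null_iff, measure_iUnion_null_iff]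
  constructor
  · intro v
    exact null_ker (LinearMap.proj v : (P → ℝ) →ₗ[ℝ] ℝ) ⟨fun _ => 1, by simp⟩
  · intro v
    rw [measure_iUnion_null_iff]
    intro w
    rw [measure_union_null_iff]
    by_cases hvw : v = w
    · simp [hvw]
    · constructor
      · have h := null_ker ((LinearMap.proj v : (P → ℝ) →ₗ[ℝ] ℝ) - LinearMap.proj w)
          ⟨Pi.single v 1, by simp [Pi.single_eq_of_ne (Ne.symm hvw)]⟩
        refine measure_mono_null ?_ h
        rintro y ⟨_, hy⟩
        simp [hy]
      · have h := null_ker ((LinearMap.proj v : (P → ℝ) →ₗ[ℝ] ℝ) + LinearMap.proj w)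
          ⟨Pi.single v 1, by simp [Pi.single_eq_of_ne (Ne.symm hvw)]⟩
        refine measure_mono_null ?_ h
        rintro y ⟨_, hy⟩
        simp [hy]

/-! ### (5) signed permutations -/

theorem part5 {x x' : P → ℤ} (hx : x ∈ XX P) (hx' : x' ∈ XX P) :
    ∃ (σ : Equiv.Perm P) (ε : P → ℝ), (∀ v, ε v = 1 ∨ ε v = -1) ∧
      (∀ v, (x' v : ℝ) = ε v * x (σ v)) ∧
      ∀ y, y ∈ Ch x ↔ (fun v => ε v * y (σ v)) ∈ Ch x' := by
  classical
  set σ : Equiv.Perm P := (lv hx').trans (lv hx).symm with hσ
  have h1 : ∀ v, x' v = x (σ v) ∨ x' v = -x (σ v) := by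
    intro v
    have h : lv hx (σ v) = lv hx' v := by simp [hσ]
    have h2 : (x (σ v)).natAbs / 2 = (x' v).natAbs / 2 := congrArg Fin.val h
    have h3 := (natAbs_eq hx (σ v)).1
    have h4 := (natAbs_eq hx' v).1
    omega
  set ε : P → ℝ := fun v => if x' v = x (σ v) then 1 else -1 with hε
  set τ : P × Bool → P × Bool := fun a => (σ a.1, if x' a.1 = x (σ a.1) then a.2 else !a.2)
    with hτ
  have t1 : ∀ a, sv x' a = sv x (τ a) := by
    rintro ⟨v, s⟩
    by_cases h : x' v = x (σ v)
    · simp only [hτ, sv, h, if_true]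
    · have h' := (h1 v).resolve_left h
      have h'' : ¬ (-x (σ v) = x (σ v)) := by
        rw [← h']
        exact h
      cases s <;> simp [hτ, sv, h', h'']
  have t2 : ∀ (y : P → ℝ) a, sv (fun v => ε v * y (σ v)) a = sv y (τ a) := by
    rintro y ⟨v, s⟩
    by_cases h : x' v = x (σ v)
    · simp only [hτ, hε, sv, h, if_true, one_mul]
    · cases s <;> simp [hτ, hε, sv, h]
  have t3 : Function.Surjective τ := by
    rintro ⟨w, t⟩
    by_cases h : x' (σ.symm w) = x w
    · exact ⟨(σ.symm w, t), by simp [hτ, h]⟩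
    · exact ⟨(σ.symm w, !t), by simp [hτ, h]⟩
  refine ⟨σ, ε, fun v => ?_, fun v => ?_, fun y => ?_⟩
  · simp only [hε]
    split_ifs
    · exact Or.inl rfl
    · exact Or.inr rfl
  · simp only [hε]
    split_ifs with h
    · rw [one_mul, h]
    · rw [(h1 v).resolve_left h]
      push_cast
      ring
  · constructor
    · intro h a b hab
      rw [t1, t1] at hab
      rw [t2, t2]
      exact h _ _ hab
    · intro h a b hab
      obtain ⟨a', rfl⟩ := t3 a
      obtain ⟨b', rfl⟩ := t3 b
      rw [← t1, ← t1] at hab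
      rw [← t2, ← t2]
      exact h _ _ hab

end

theorem t_CH0 : S_CH0 := by
  classical
  intro P _ _
  refine ⟨fun x _ => open_Ch x, fun x hx x' hx' hne => ?_, fill, fun R => ⟨?_, ?_, ?_⟩,
    fun x hx x' hx' => part5 hx hx'⟩
  · rw [Set.disjoint_left]
    intro y hy hy'
    exact hne (unique_state hx hx' hy hy')
  · intro x hx
    exact (mem_Om.1 hx).1
  · intro x hx y hy a b hab
    obtain ⟨hxX, h⟩ := mem_Om.1 hx
    rcases (h a b hab).lt_or_eq with h | h
    · exact (hy a b h).le
    · rw [sv_inj hxX h]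
  · intro x hx hxR
    rw [Set.disjoint_left]
    intro y hy hyK
    apply hxR
    refine mem_Om.2 ⟨hx, fun a b hab => ?_⟩
    by_contra hcon
    push Not at hcon
    exact absurd (hyK a b hab) (not_le.2 (hy b a hcon))

end Run7.h299.KF
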